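import Pool.Agent.H484R2.EPi

/-!
Either `1, e, π` are linearly independent over the field of algebraic numbers (in particular over
`ℚ`), or the exponentials built from `e`, `π` and logarithms of algebraic numbers listed below are
transcendental.  `W` is the vector space spanned by `1, e, π` over the algebraic numbers.
-/

namespace Pool.Agent.Results.MP_58e087_nt.DependenceConsequences

open Pool.Agent.H484R2.EPi

theorem result :
    LinearIndependent (algebraicClosure ℚ ℂ) ![(1 : ℂ), Complex.exp 1, (Real.pi : ℂ)] ∨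
    ((∀ θ : ℝ, (θ : ℂ) ∈ W → Transcendental ℚ θ →
        ∀ (n : ℕ) (x c : Fin n → ℝ), (∀ i, 0 < x i) → (∀ i, IsAlgebraic ℚ (x i)) →
          (∀ i, IsAlgebraic ℚ (c i)) → Transcendental ℚ (Real.exp θ * ∏ i, x i ^ c i)) ∧
     (∀ θ₁ ∈ W, ∀ θ₂ ∈ W, Transcendental ℚ θ₁ → Transcendental ℚ θ₂ → ∀ t₁ ∈ W, ∀ t₂ ∈ W,
        ∀ l m : ℂ, IsAlgebraic ℚ (Complex.exp l) → IsAlgebraic ℚ (Complex.exp m) →
          LinearIndependent ℚ ![l, m] →
          Transcendental ℚ (Complex.exp (θ₁ * l + t₁)) ∨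
            Transcendental ℚ (Complex.exp (θ₂ * m + t₂))) ∧
     (∀ θ₁ ∈ W, ∀ θ₂ ∈ W, ∀ θ₃ ∈ W, Transcendental ℚ θ₁ → Transcendental ℚ θ₂ →
        Transcendental ℚ θ₃ → ∀ t₁ ∈ W, ∀ t₂ ∈ W, ∀ l : ℂ, IsAlgebraic ℚ (Complex.exp l) →
          (∀ q : ℚ, l ≠ q * (Real.pi * Complex.I)) →
          Transcendental ℚ (Complex.exp (θ₁ * θ₂ + t₁)) ∨
            Transcendental ℚ (Complex.exp (θ₃ * l + t₂))) ∧
     (∀ θ₁ ∈ W, ∀ θ₂ ∈ W, ∀ θ₃ ∈ W, ∀ θ₄ ∈ W, ∀ θ₅ ∈ W, Transcendental ℚ θ₁ →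
        Transcendental ℚ θ₂ → Transcendental ℚ θ₃ → Transcendental ℚ θ₄ → Transcendental ℚ θ₅ →
          ∀ t₁ ∈ W, ∀ t₂ ∈ W, ∀ t₃ ∈ W, ∀ t₄ ∈ W,
          Transcendental ℚ (Complex.exp (θ₁ * θ₂ + t₁)) ∨
            Transcendental ℚ (Complex.exp (θ₃ * θ₄ * θ₅ + t₂ * t₃ + t₄)))) := by
  by_cases hli : LinearIndependent (algebraicClosure ℚ ℂ)
      ![(1 : ℂ), Complex.exp 1, (Real.pi : ℂ)]
  · exact Or.inl hli
  right
  rw [Fintype.linearIndependent_iff] at hli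
  push Not at hli
  obtain ⟨g, hg, i, hi⟩ := hli
  have hg' : (g 0 : ℂ) + (g 1 : ℂ) * E + (g 2 : ℂ) * Real.pi = 0 := by
    rw [Fin.sum_univ_three] at hg
    simp only [Matrix.cons_val_zero, Matrix.cons_val_one, Matrix.cons_val, Algebra.smul_def,
      mul_one] at hg
    exact hg
  have halg : ∀ j, IsAlgebraic ℚ ((g j : algebraicClosure ℚ ℂ) : ℂ) := fun j =>
    mem_algebraicClosure_iff.mp (g j).2
  obtain ⟨u, v, hu, hv, hv0, hE, -, -⟩ := rel (g 0) (g 1) (g 2) (halg 0) (halg 1) (halg 2) (by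
    rintro ⟨h0, h1, h2⟩
    apply hi
    fin_cases i
    · exact Subtype.ext h0
    · exact Subtype.ext h1
    · exact Subtype.ext h2) hg'
  refine ⟨?_, ?_, ?_, ?_⟩
  · intro θ h ht n x c h0 hx hc
    exact part1 hu hv hE h ht x c h0 hx hc
  · intro θ₁ h1 θ₂ h2 ht1 ht2 t₁ hts1 t₂ hts2 l m hl hm hlm
    by_contra hcon
    push Not at hcon
    simp only [Transcendental, not_not] at hcon
    exact part2 hu hv hE h1 ht1 h2 ht2 hts1 hts2 hl hm hlm hcon.1 hcon.2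
  · intro θ₁ h1 θ₂ h2 θ₃ h3 ht1 ht2 ht3 t₁ hts1 t₂ hts2 l hl hq
    by_contra hcon
    push Not at hcon
    simp only [Transcendental, not_not] at hcon
    exact part3 hu hv hv0 hE h1 ht1 h2 ht2 h3 ht3 hts1 hts2 hl hq hcon.1 hcon.2
  · intro θ₁ h1 θ₂ h2 θ₃ h3 θ₄ h4 θ₅ h5 ht1 ht2 ht3 ht4 ht5 t₁ hts1 t₂ hts2 t₃ hts3 t₄ hts4
    by_contra hcon
    push Not at hcon
    simp only [Transcendental, not_not] at hcon
    exact part4 hu hv hE h1 ht1 h2 ht2 h3 ht3 h4 ht4 h5 ht5 hts1 hts2 hts3 hts4 hcon.1 hcon.2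

end Pool.Agent.Results.MP_58e087_nt.DependenceConsequences
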