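import Pool.Agent.H206R2.Tower.Base2

/-!
Either `1, e, π` are linearly independent over the field of algebraic numbers, or most quotients of
elements of their span are not linear combinations of `1` and logarithms of algebraic numbers.
-/

set_option autoImplicit false

namespace Pool.Agent.Results.MP_58e087_nt.DependenceQuotients

open Real Pool.Agent.H301R2.SSE Pool.Agent.H301R2.Nine Pool.Agent.H206R2.Tower
open Pool.Agent.H206R2.OneVar (sub_ne mul_pole poles2)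

/-- `x` is strongly log-free: every number `exp (γ x + δ) · α₁ ^ β₁ ⋯ αₙ ^ βₙ` is
transcendental, where `γ ≠ 0`, `δ` and the `βⱼ` are algebraic and `αⱼ ^ βⱼ = exp (βⱼ ℓⱼ)` with
`exp ℓⱼ = αⱼ` algebraic. -/
def StronglyLogFree (x : ℂ) : Prop :=
  ∀ γ δ : ℂ, IsAlgebraic ℚ γ → IsAlgebraic ℚ δ → γ ≠ 0 → ∀ (n : ℕ) (β ℓ : Fin n → ℂ),
    (∀ j, IsAlgebraic ℚ (β j)) → (∀ j, IsAlgebraic ℚ (Complex.exp (ℓ j))) →
      Transcendental ℚ (Complex.exp (γ * x + δ + ∑ j, β j * ℓ j))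

theorem strong_of {x : ℂ} (hx : x ∉ Lt) : StronglyLogFree x := by
  intro γ δ hγ hδ hγ0 n β ℓ hβ hℓ h
  apply hx
  have h' : IsAlgebraic ℚ (Complex.exp (γ * x + δ + ∑ j, β j * ℓ j)) := h
  have h1 : γ * x + δ + ∑ j, β j * ℓ j ∈ Lt := Lt_log h'
  have h2 : ∑ j, β j * ℓ j ∈ Lt := Lt.sum_mem (fun j _ => Lt_mul (hβ j) (Lt_log (hℓ j)))
  have h3 := Lt_mul hγ.inv (Lt.sub_mem (Lt.sub_mem h1 h2) (Lt_alg hδ))
  have e : γ⁻¹ * (γ * x + δ + ∑ j, β j * ℓ j - ∑ j, β j * ℓ j - δ) = x := by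
    rw [add_sub_cancel_right, add_sub_cancel_right, inv_mul_cancel_left₀ hγ0]
  rwa [e] at h3

/-- the number `e`, as a complex number -/
noncomputable def ee : ℂ := ((Real.exp 1 : ℝ) : ℂ)

/-- the number `π`, as a complex number -/
noncomputable def pp : ℂ := ((Real.pi : ℝ) : ℂ)

/-- the span of `1, e, π` over the algebraic numbers -/
def W : Set ℂ := {x : ℂ | ∃ a b c : ℂ, IsAlgebraic ℚ a ∧ IsAlgebraic ℚ b ∧ IsAlgebraic ℚ c ∧
  x = a + b * ee + c * pp}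

theorem pp_tr : ¬ IsAlgebraic ℚ pp := trC_pi

theorem ee_tr : ¬ IsAlgebraic ℚ ee := trC_e

theorem pp_Lt : pp ∈ Lt := LB_Lt pi_mem

/-- `1/(π - α)` and `π²` -/
theorem pair2 {α : ℂ} (hα : IsAlgebraic ℚ α) (h1 : 1 / (pp - α) ∈ Lt) (h2 : pp ^ 2 ∈ Lt) :
    False := by
  have s0 := sub_ne pp_tr hα
  refine six' 1 pp (1 / (pp - α)) 1 pp
    (fun a b ha hb h => lin_of_tr pp_tr ha hb (by linear_combination h)) ?_
    (by rw [one_mul]; exact h1) (by rw [one_mul]; exact Lt_one) (by rw [one_mul]; exact pp_Lt)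
    (mul_pole pp_tr hα h1) (by rw [mul_one]; exact pp_Lt)
    (by rw [← sq]; exact h2)
  intro a b c ha hb hc h
  have key : (a - b * α) + (b - c * α) * pp + c * pp ^ 2 = 0 := by
    have : (pp - α) * (a * (1 / (pp - α)) + b * 1 + c * pp)
        = (a - b * α) + (b - c * α) * pp + c * pp ^ 2 := by
      field_simp
      ring
    rw [← this, h, mul_zero]
  obtain ⟨k0, k1, k2⟩ := quad pp_tr (ha.sub (hb.mul hα)) (hb.sub (hc.mul hα)) hc key
  subst k2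
  have hb0 : b = 0 := by linear_combination k1
  subst hb0
  exact ⟨by linear_combination k0, rfl, rfl⟩

/-- a quotient with a pole -/
theorem quot {u v u' v' : ℂ} (hu : IsAlgebraic ℚ u) (hv : IsAlgebraic ℚ v) (hu' : IsAlgebraic ℚ u')
    (hv' : IsAlgebraic ℚ v') (hv0 : v ≠ 0) (hna : ¬ IsAlgebraic ℚ ((u' + v' * pp) / (u + v * pp)))
    (h : (u' + v' * pp) / (u + v * pp) ∈ Lt) : 1 / (pp - (-u / v)) ∈ Lt := by
  have hα : IsAlgebraic ℚ (-u / v) := by rw [div_eq_mul_inv]; exact hu.neg.mul hv.inv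
  have s0 := sub_ne pp_tr hα
  have s1 : u + v * pp = v * (pp - (-u / v)) := by field_simp; ring
  have e : (u' + v' * pp) / (u + v * pp)
      = v' * v⁻¹ + ((u' + v' * (-u / v)) * v⁻¹) * (1 / (pp - (-u / v))) := by
    rw [s1]
    have s2 : u' + v' * pp = v' * (pp - (-u / v)) + (u' + v' * (-u / v)) := by ring
    rw [s2, add_div, mul_div_mul_comm, div_self s0, mul_one, div_mul_eq_div_div, div_eq_mul_inv v' v,
      div_eq_mul_inv (u' + v' * (-u / v)) v, div_eq_mul_one_div (_ * v⁻¹) (pp - _)]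
  have hw : (u' + v' * (-u / v)) * v⁻¹ ≠ 0 := by
    intro h0
    apply hna
    rw [e, h0, zero_mul, add_zero]
    exact hv'.mul hv.inv
  rw [e] at h
  exact Pool.Agent.H206R2.OneVar.strip (hv'.mul hv.inv)
    ((hu'.add (hv'.mul hα)).mul hv.inv) hw h

/-- Either `1, e, π` are linearly independent over the algebraic numbers, or, for elements of their
span `W` over the algebraic numbers: (i) of two non-algebraic quotients `s₁/θ₁`, `s₂/θ₂` with
`θ₁, θ₂, θ₁/θ₂` not algebraic one is strongly log-free; (ii) of a non-algebraic quotient `s/θ₁` and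
a product `θ₂ θ₃` (`θ₁, θ₂, θ₃` not algebraic) one is strongly log-free; (iii) either `α ^ π` is
transcendental for all real algebraic `α > 0`, `α ≠ 1`, or all quotients and products as in (i),
(ii) are strongly log-free. -/
theorem result :
    (∀ a b c : ℂ, IsAlgebraic ℚ a → IsAlgebraic ℚ b → IsAlgebraic ℚ c →
      a + b * ee + c * pp = 0 → a = 0 ∧ b = 0 ∧ c = 0) ∨
    ((∀ s1 ∈ W, ∀ s2 ∈ W, ∀ θ1 ∈ W, ∀ θ2 ∈ W, ¬ IsAlgebraic ℚ θ1 → ¬ IsAlgebraic ℚ θ2 →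
        ¬ IsAlgebraic ℚ (θ1 / θ2) → ¬ IsAlgebraic ℚ (s1 / θ1) → ¬ IsAlgebraic ℚ (s2 / θ2) →
        StronglyLogFree (s1 / θ1) ∨ StronglyLogFree (s2 / θ2)) ∧
      (∀ s ∈ W, ∀ θ1 ∈ W, ∀ θ2 ∈ W, ∀ θ3 ∈ W, ¬ IsAlgebraic ℚ θ1 → ¬ IsAlgebraic ℚ θ2 →
        ¬ IsAlgebraic ℚ θ3 → ¬ IsAlgebraic ℚ (s / θ1) →
        StronglyLogFree (s / θ1) ∨ StronglyLogFree (θ2 * θ3)) ∧
      ((∀ x : ℝ, IsAlgebraic ℚ x → 0 < x → x ≠ 1 → Transcendental ℚ (x ^ π)) ∨
        ((∀ s ∈ W, ∀ θ1 ∈ W, ¬ IsAlgebraic ℚ θ1 → ¬ IsAlgebraic ℚ (s / θ1) →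
          StronglyLogFree (s / θ1)) ∧
        (∀ θ2 ∈ W, ∀ θ3 ∈ W, ¬ IsAlgebraic ℚ θ2 → ¬ IsAlgebraic ℚ θ3 →
          StronglyLogFree (θ2 * θ3))))) := by
  by_cases hH : ∀ a b c : ℂ, IsAlgebraic ℚ a → IsAlgebraic ℚ b → IsAlgebraic ℚ c →
      a + b * ee + c * pp = 0 → a = 0 ∧ b = 0 ∧ c = 0
  · exact Or.inl hH
  right
  push Not at hH
  obtain ⟨a, b, c, ha, hb, hc, h0, hne⟩ := hH
  have hb0 : b ≠ 0 := by
    rintro rfl
    obtain ⟨h1, h2⟩ := lin_of_tr pp_tr ha hc (by linear_combination h0)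
    exact hne h1 rfl h2
  -- every element of `W` is `u + v π`
  have hW : ∀ x ∈ W, ∃ u v : ℂ, IsAlgebraic ℚ u ∧ IsAlgebraic ℚ v ∧ x = u + v * pp := by
    rintro x ⟨p, q, r, hp, hq, hr, rfl⟩
    refine ⟨p - q * (a * b⁻¹), r - q * (c * b⁻¹), hp.sub (hq.mul (ha.mul hb.inv)),
      hr.sub (hq.mul (hc.mul hb.inv)), ?_⟩
    have h1 : ee = -(a * b⁻¹) - (c * b⁻¹) * pp := by
      field_simp
      linear_combination h0
    rw [h1]
    ring
  have hv : ∀ u v : ℂ, IsAlgebraic ℚ u → ¬ IsAlgebraic ℚ (u + v * pp) → v ≠ 0 := by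
    rintro u v hu h rfl
    apply h
    rw [zero_mul, add_zero]
    exact hu
  refine ⟨?_, ?_, ?_⟩
  · intro s1 hs1 s2 hs2 θ1 hθ1 θ2 hθ2 n1 n2 n12 m1 m2
    obtain ⟨p1, q1, hp1, hq1, rfl⟩ := hW s1 hs1
    obtain ⟨p2, q2, hp2, hq2, rfl⟩ := hW s2 hs2
    obtain ⟨u1, v1, hu1, hv1, rfl⟩ := hW θ1 hθ1
    obtain ⟨u2, v2, hu2, hv2, rfl⟩ := hW θ2 hθ2
    have w1 := hv u1 v1 hu1 n1
    have w2 := hv u2 v2 hu2 n2
    by_contra hcon
    rw [not_or] at hcon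
    have k1 : (p1 + q1 * pp) / (u1 + v1 * pp) ∈ Lt := by
      by_contra h
      exact hcon.1 (strong_of h)
    have k2 : (p2 + q2 * pp) / (u2 + v2 * pp) ∈ Lt := by
      by_contra h
      exact hcon.2 (strong_of h)
    have l1 := quot hu1 hv1 hp1 hq1 w1 m1 k1
    have l2 := quot hu2 hv2 hp2 hq2 w2 m2 k2
    have hα1 : IsAlgebraic ℚ (-u1 / v1) := by rw [div_eq_mul_inv]; exact hu1.neg.mul hv1.inv
    have hα2 : IsAlgebraic ℚ (-u2 / v2) := by rw [div_eq_mul_inv]; exact hu2.neg.mul hv2.inv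
    refine poles2 pp_tr hα1 hα2 ?_ pp_Lt l1 l2
    intro h
    apply n12
    have s0 := sub_ne pp_tr hα2
    have e1 : u1 + v1 * pp = v1 * (pp - (-u1 / v1)) := by field_simp; ring
    have e2 : u2 + v2 * pp = v2 * (pp - (-u2 / v2)) := by field_simp; ring
    rw [e1, e2, h, mul_div_mul_right _ _ s0, div_eq_mul_inv]
    exact hv1.mul hv2.inv
  · intro s hs θ1 hθ1 θ2 hθ2 θ3 hθ3 n1 n2 n3 m1
    obtain ⟨p1, q1, hp1, hq1, rfl⟩ := hW s hs
    obtain ⟨u1, v1, hu1, hv1, rfl⟩ := hW θ1 hθ1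
    obtain ⟨u2, v2, hu2, hv2, rfl⟩ := hW θ2 hθ2
    obtain ⟨u3, v3, hu3, hv3, rfl⟩ := hW θ3 hθ3
    have w1 := hv u1 v1 hu1 n1
    have w2 := hv u2 v2 hu2 n2
    have w3 := hv u3 v3 hu3 n3
    by_contra hcon
    rw [not_or] at hcon
    have k1 : (p1 + q1 * pp) / (u1 + v1 * pp) ∈ Lt := by
      by_contra h
      exact hcon.1 (strong_of h)
    have k2 : (u2 + v2 * pp) * (u3 + v3 * pp) ∈ Lt := by
      by_contra h
      exact hcon.2 (strong_of h)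
    have l1 := quot hu1 hv1 hp1 hq1 w1 m1 k1
    have hα1 : IsAlgebraic ℚ (-u1 / v1) := by rw [div_eq_mul_inv]; exact hu1.neg.mul hv1.inv
    refine pair2 hα1 l1 ?_
    have e : pp ^ 2 = (v2 * v3)⁻¹ * ((u2 + v2 * pp) * (u3 + v3 * pp) - u2 * u3
        - (u2 * v3 + v2 * u3) * pp) := by
      field_simp
      ring
    rw [e]
    exact Lt_mul (hv2.mul hv3).inv (Lt.sub_mem (Lt.sub_mem k2 (Lt_alg (hu2.mul hu3)))
      (Lt_mul ((hu2.mul hv3).add (hv2.mul hu3)) pp_Lt))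
  · by_cases hD : ∀ x : ℝ, IsAlgebraic ℚ x → 0 < x → x ≠ 1 → Transcendental ℚ (x ^ π)
    · exact Or.inl hD
    right
    push Not at hD
    obtain ⟨x, hx, hx0, hx1, hxp⟩ := hD
    rw [Transcendental, not_not, Real.rpow_def_of_pos hx0, mul_comm] at hxp
    have hL0 : Real.log x ≠ 0 := by
      intro h
      rcases Real.log_eq_zero.mp h with h | h | h
      · exact hx0.ne' h
      · exact hx1 h
      · linarith
    have hL : IsAlgebraic ℚ (Real.exp (Real.log x)) := by rw [Real.exp_log hx0]; exact hx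
    have hM : (π : ℂ) * (Real.log x : ℂ) ∈ LB := by
      have := real_mem hxp
      rwa [Complex.ofReal_mul] at this
    constructor
    · intro s hs θ1 hθ1 n1 m1
      obtain ⟨p1, q1, hp1, hq1, rfl⟩ := hW s hs
      obtain ⟨u1, v1, hu1, hv1, rfl⟩ := hW θ1 hθ1
      have w1 := hv u1 v1 hu1 n1
      apply strong_of
      intro k1
      have hα1 : IsAlgebraic ℚ (-u1 / v1) := by rw [div_eq_mul_inv]; exact hu1.neg.mul hv1.inv
      exact b_pole hL0 hL hxp hα1 (quot hu1 hv1 hp1 hq1 w1 m1 k1)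
    · intro θ2 hθ2 θ3 hθ3 n2 n3
      obtain ⟨u2, v2, hu2, hv2, rfl⟩ := hW θ2 hθ2
      obtain ⟨u3, v3, hu3, hv3, rfl⟩ := hW θ3 hθ3
      have w2 := hv u2 v2 hu2 n2
      have w3 := hv u3 v3 hu3 n3
      apply strong_of
      intro k2
      apply b_sq hL0 hL hM
      have e : (π : ℂ) ^ 2 = (v2 * v3)⁻¹ * ((u2 + v2 * pp) * (u3 + v3 * pp) - u2 * u3
          - (u2 * v3 + v2 * u3) * pp) := by
        change pp ^ 2 = _
        field_simp
        ring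
      rw [e]
      exact Lt_mul (hv2.mul hv3).inv (Lt.sub_mem (Lt.sub_mem k2 (Lt_alg (hu2.mul hu3)))
        (Lt_mul ((hu2.mul hv3).add (hv2.mul hu3)) pp_Lt))

end Pool.Agent.Results.MP_58e087_nt.DependenceQuotients
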