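import Mathlib
import Pool.Agent.H447R2.PE.Dich
import Pool.Agent.H900.PE.Often

set_option autoImplicit false

namespace Pool.Agent.Results.MP_58e087_nt.IndependenceOrFew

open Real

/-- `π` has few good approximations: for every `K`, the number of rationals `x` with denominator at
most `Q` and `|π - x| ≤ K / den ^ 2` is at most `C log Q / log log Q`. -/
def FewGood : Prop :=
  ∀ K : ℝ, 0 < K → ∃ C : ℝ, 0 < C ∧ ∀ Q : ℝ, 3 ≤ Q → ∀ T : Finset ℚ,
    (∀ x ∈ T, (x.den : ℝ) ≤ Q ∧ |π - x| ≤ K / (x.den : ℝ) ^ 2) →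
      (T.card : ℝ) ≤ C * (log Q / log (log Q))

/-- infinitely many rationals `x`, of denominator `q`, satisfy
`|π - x| ≤ C log log q / (q² log q)` -/
def VeryGoodOften : Prop :=
  ∃ C : ℝ, 0 < C ∧ {x : ℚ | 3 ≤ x.den ∧
    |π - x| ≤ C * (log (log x.den) / ((x.den : ℝ) ^ 2 * log x.den))}.Infinite

/-- Either `1, exp (2/k), π, π exp (2/k)` are linearly independent over the rationals for every
`k ≥ 1` (in particular `1, e, π, πe` are), or `π` has few good approximations, and is not badly
approximable. -/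
theorem result :
    (∀ k : ℕ, 1 ≤ k →
      LinearIndependent ℚ ![(1 : ℝ), exp (2 / (k : ℝ)), π, π * exp (2 / (k : ℝ))]) ∨
      (FewGood ∧ VeryGoodOften) := by
  by_cases h : (FewGood ∧ VeryGoodOften)
  · exact Or.inr h
  · left
    intro k hk
    exact (Pool.Agent.H900.PE.dichotomy k hk).resolve_right h

end Pool.Agent.Results.MP_58e087_nt.IndependenceOrFew
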