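import Mathlib
import Pool.Agent.H447R2.PE.Dich

set_option autoImplicit false

namespace Pool.Agent.Results.MP_58e087_nt.IndependenceOrMeasure

open Real

/-- `π` is badly approximable up to the factor `log q / log log q`: there is `C > 0` with
`|π - p/q| ≥ C log log q / (q² log q)` for all integers `p` and `q ≥ 3`. -/
def BadlyApproximable : Prop :=
  ∃ C : ℝ, 0 < C ∧ ∀ (p : ℤ) (q : ℕ), 3 ≤ q →
    C * (log (log q) / ((q : ℝ) ^ 2 * log q)) ≤ |π - p / q|

/-- Either `1, e, π` (and even `1, e, π, πe`) are linearly independent over the rationals, or `π` is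
badly approximable up to the factor `log q / log log q`. -/
theorem result :
    LinearIndependent ℚ ![(1 : ℝ), exp 1, π, π * exp 1] ∨ BadlyApproximable := by
  rcases Pool.Agent.H447R2.PE.indep_or_bound 2 (by norm_num) with h | h
  · left
    have e : exp (2 / ((2 : ℕ) : ℝ)) = exp 1 := by norm_num
    rwa [e] at h
  · exact Or.inr h

end Pool.Agent.Results.MP_58e087_nt.IndependenceOrMeasure
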